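import Pool.Agent.H73FC.Cor

/-!
# The `C^r` closing lemma for arbitrary maps times homogeneous maps and maps with periodic circles

`V n = ℝⁿ`, `DiffM n N r = Diff^r(N)`, `strongTop n N r` is its strong (Whitney) `C^r` topology (the
usual one, `N` being compact), `IsRec f x`: `x` is recurrent, `IsPer G z`: `z` is periodic for `G`
(`Pool/Agent/H718R2/G0.lean`); `LFlow k Y O ψ`: `ψ` is a smooth action of `ℝ` on the open set `O`
(a flow); `IsLift G`, `rho G`, `NotLocked G`: `G` is a lift of an orientation preserving `C²`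
diffeomorphism of the circle, its rotation number, and the condition that the rotation number of
`G (· + s)` is not constant for `s` near `0`, for example `rho G` is irrational
(`Pool/Agent/N102/CF/Defs.lean`); `IsSLdAction d k Y O ρ`: `ρ` is a smooth action of `SL(d, ℝ)` on the
open set `O`, `IsLatticePt ρ y`: the stabiliser of `y` is discrete and cocompact, `IsSLdPer`
(`Pool/Agent/Y368/SLD/Defs.lean`); `ProdDiffeo m k n M Y N`: smooth diffeomorphisms `Θ : M × Y → N`,
`atP Θ x y = Θ (x, y)`, `IsProd Θ F L f h`: `F (x, y) = (f x, h y)` for `x ∈ L`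
(`Pool/Agent/Y271/CP/Defs.lean`).

From `Pool/Agent/H73FC/CDefs.lean`:
* `CircPt k Y h y`: `y` lies on a periodic circle of `h` which is a closed orbit of a smooth flow `ψ`
  defined near it, and `h^q (ψ_t y) = ψ_(G t) y`, `NotLocked G`. `h` and `ψ` need not commute;
* `TorPer k Y h y`: `y` lies on a periodic torus of positive dimension (an orbit of a smooth action of
  `ℝᵉ`) on which the return map is a translation;
* `NonWandAll f x`: `x` is nonwandering for all powers of `f`;
* `ProdHom r Θ F x y`: on `L × Y` the map `F` is the product `f × h`, where `L ∋ x` is compact,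
  `f : L → L` is an arbitrary homeomorphism for which `x` is recurrent, or nonwandering for all powers
  of `f`, `h ∈ Diff^r(Y)`, and `y` is a limit of points which satisfy `CircPt`, `TorPer` or `IsSLdPer`
  for `h`. Nothing is required of `F` outside of `L × Y`.

The last two theorems are special cases.
-/

set_option autoImplicit false

open scoped Manifold ContDiff Topology

universe u

namespace Pool.Agent.Results.MP_1e8d1a_an.ArbitraryTimesHomogeneous

open Pool.Agent.H718R2.G Pool.Agent.Y271.CP Pool.Agent.TH80.CLX Pool.Agent.Y368.SLD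
open Pool.Agent.H73FC

/-- Let `N` be a closed manifold, `Θ : M × Y → N` a smooth diffeomorphism, `1 ≤ r ≤ ∞`,
`F ∈ Diff^r(N)` and `z ∈ N`. Suppose that arbitrarily `C^r`-close to `F` there are diffeomorphisms `F'`
(for example `F' = F`) for which `z` is a limit of points `Θ (x, y)` of the following kind: for some
compact set `L ∋ x`, the map `F'` is on `L × Y` a product `f × h`, where

* `f : L → L` is an ARBITRARY homeomorphism for which `x` is recurrent, or nonwandering for all powers;
* `h ∈ Diff^r(Y)`, and `y` is a limit of points which lie on periodic homogeneous submanifolds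
  `SL(d, ℝ) / Γ` of `h` (`d ≥ 2`, `Γ` discrete and cocompact, the return map being a translation), on
  periodic tori of positive dimension on which `h` is quasi-periodic, or on periodic circles on which
  the rotation number of `h` is not locked (for example, irrational).

Then the conclusion of the `C^r` closing lemma holds for `F` at `z`: every `C^r` neighbourhood of `F`
contains a diffeomorphism `G` for which this point is periodic. -/
theorem result {m k n : ℕ} {M : Type*} [TopologicalSpace M] [ChartedSpace (V m) M]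
    {Y : Type*} [TopologicalSpace Y] [T2Space Y] [CompactSpace Y] [ChartedSpace (V k) Y]
    [IsManifold (𝓡 k) ∞ Y] {N : Type u} [TopologicalSpace N] [T2Space N] [CompactSpace N]
    [ChartedSpace (V n) N] [IsManifold (𝓡 n) ∞ N] (r : ℕ∞) (hr : 1 ≤ r)
    (Θ : ProdDiffeo m k n M Y N) (F : DiffM n N r) (z : N)
    (h : ∀ U : Set (DiffM n N r), IsOpen[strongTop n N r] U → F ∈ U →
      ∃ F' ∈ U, z ∈ closure {w | ∃ x y, w = atP Θ x y ∧ ProdHom r Θ F' x y}) :
    ∀ U : Set (DiffM n N r), IsOpen[strongTop n N r] U → F ∈ U → ∃ G ∈ U, IsPer G z :=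
  sc_main hr Θ F z h

/-- Special case: `F = f × ρ(g)`, `f` an arbitrary homeomorphism of `M`, `ρ` a smooth action of
`SL(d, ℝ)` on `Y`, `d ≥ 2`, `g ∈ SL(d, ℝ)` arbitrary. The closing lemma holds for `F` at all `(x, y)`
such that `x` is recurrent for `f` and the stabiliser of `y` is a cocompact lattice. -/
theorem times_translation {m k n d : ℕ} (hd : 2 ≤ d) {M : Type*} [TopologicalSpace M]
    [ChartedSpace (V m) M] {Y : Type*} [TopologicalSpace Y] [T2Space Y] [CompactSpace Y]
    [ChartedSpace (V k) Y] [IsManifold (𝓡 k) ∞ Y] {N : Type u} [TopologicalSpace N] [T2Space N]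
    [CompactSpace N] [ChartedSpace (V n) N] [IsManifold (𝓡 n) ∞ N] (r : ℕ∞) (hr : 1 ≤ r)
    (Θ : ProdDiffeo m k n M Y N) (F : DiffM n N r) (f : M ≃ₜ M) (ρ : SLd d → Y → Y)
    (hρ : IsSLdAction d k Y Set.univ ρ) (g : SLd d)
    (hF : ∀ x y, F (atP Θ x y) = atP Θ (f x) (ρ g y)) (x : M) (y : Y) (hx : IsRec f x)
    (hy : IsLatticePt ρ y) :
    ∀ U : Set (DiffM n N r), IsOpen[strongTop n N r] U → F ∈ U → ∃ G ∈ U, IsPer G (atP Θ x y) :=
  closable_prod (sc_translation hr hd hρ g y hy) F f hF x hx

/-- Special case: `F = f × h`, `f` an arbitrary homeomorphism of `M`, `h` commutes with a smooth flow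
`ψ` of `Y` (for example, `h` is a time map of `ψ`). The closing lemma holds for `F` at all `(x, y)` such
that `x` is recurrent for `f` and `y` is a limit of points on closed orbits of `ψ` which are periodic (as
sets) under `h`. -/
theorem times_commuting {m k n : ℕ} {M : Type*} [TopologicalSpace M]
    [ChartedSpace (V m) M] {Y : Type*} [TopologicalSpace Y] [T2Space Y] [CompactSpace Y]
    [ChartedSpace (V k) Y] [IsManifold (𝓡 k) ∞ Y] {N : Type u} [TopologicalSpace N] [T2Space N]
    [CompactSpace N] [ChartedSpace (V n) N] [IsManifold (𝓡 n) ∞ N] (r : ℕ∞) (hr : 1 ≤ r)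
    (Θ : ProdDiffeo m k n M Y N) (F : DiffM n N r) (f : M ≃ₜ M) (h : DiffM k Y r)
    (ψ : ℝ → Y → Y) (hψ : LFlow k Y Set.univ ψ) (hcomm : ∀ t y, h (ψ t y) = ψ t (h y))
    (hF : ∀ x y, F (atP Θ x y) = atP Θ (f x) (h y)) (x : M) (y : Y) (hx : IsRec f x)
    (hy : y ∈ closure {y' | (∃ T : ℝ, T ≠ 0 ∧ ψ T y' = y') ∧ (∃ t : ℝ, ψ t y' ≠ y') ∧
      ∃ q : ℕ, 1 ≤ q ∧ ∃ s, h^[q] y' = ψ s y'}) :
    ∀ U : Set (DiffM n N r), IsOpen[strongTop n N r] U → F ∈ U → ∃ G ∈ U, IsPer G (atP Θ x y) :=
  closable_prod (sc_of_commuting hr h hψ hcomm y hy) F f hF x hx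

end Pool.Agent.Results.MP_1e8d1a_an.ArbitraryTimesHomogeneous
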