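import Pool.Agent.Helper36x.HC.Fin

/-!
# The `C^r` closing lemma for affine maps on homogeneous leaves and for translations of homogeneous
manifolds of finite volume: strong topology, small supports, `N` need not be compact

`V n = ℝⁿ`, `DiffM n N r = Diff^r(N)`, `strongTop n N r` is its strong (Whitney) `C^r` topology, `IsPer G z`:
`z` is periodic for `G` (`Pool/Agent/H718R2/G0.lean`); `ClosableAt n N r F z`: every neighbourhood of `F` in
`Diff^r(N)` contains some `G` for which `z` is periodic (`Pool/Agent/TH382/QC/Defs.lean`); `lieAlg D hD`,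
`ex`: Lie algebra and exponential map of a closed subgroup `D` of the group of units of a
finite-dimensional real Banach algebra `A` (`Pool/Agent/E8helper46/FL/ExpLie.lean`).

From `Pool/Agent/Helper36x/HC`:
* `Defs.lean`: `IsAction n N D O act`: smooth action of the closed linear group `D` on the open set `O ⊆ N`;
  `AffineLeaf F O act φ m z`: the orbit `C = D z` is mapped to itself by `F^m`, which is on `C` the affine
  map `g z ↦ φ(g) F^m(z)`, `φ` an endomorphism of `D`, and `z` is not a limit of points of the `F^i(C)`,
  `0 < i < m`; `SolvableAlong D hD φ k`: `φ` has an invertible derivative `L` and each `X ∈ Lie(D)` is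
  `X₀ + (X₁ - Y₁) + (X₂ - Y₂)` with `L X₀ = X₀`, `L^(k i) X₁ → Y₁`, `L^(-k i) X₂ → Y₂`;
  `ReturnsAlong F act m z k`: for all `B ∈ 𝓝 1` in `D`, `F^(m k_i)(B z)` meets `B z` for all large `i`;
  `IsAffinePt n N F z`: the conjunction, for some `A, D, O, act, φ, m, k`, all `k_i ≥ 1`. Nothing is
  required of `F` elsewhere; the leaf `C` need not be closed, `D` is an arbitrary closed linear group.
* `HypMod D hD φ`: `Lie(D)` is the sum of the fixed points, the contracted and the expanded
  vectors of `L`; `SemiMod D hD φ` (`Cor1.lean`) allows in addition vectors `X₃ - L X₃` with a bounded orbit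
  (`L` semisimple); `NonWandIn`, `MixingIn`: `z` is nonwandering, respectively topologically
  mixing, for `F^m` in its leaf.
* `NonWand F z`: nonwandering point; `MixAt F z`: topologically mixing point; `LocallyClosable n N r F z`:
  the conclusion of `result` (`Cor2.lean`); `MC d`: complex matrices; `DiagBy h P lam`:
  `h = P diag(lam) P⁻¹`.
* `Defs2.lean`: `Horo h`: union of the contracting and the expanding horospherical subgroups of `h`;
  `HoroInv act μ h`: all `f ∈ L²(N, μ)` invariant under `Horo h` are invariant under `h`, for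
  example if `h` is in the closed subgroup generated by `Horo h` (`horoInv_of_closure`, `Mautner.lean`).
* `FiniteVolume n N D act μ z`: `D` is closed and acts smoothly on `N`, the orbit map of `z` is open at `1`, `μ`
  is a finite invariant Borel measure with `z` in its support; `GoodElt act μ e h`: `h ∈ D` is
  diagonalizable over `ℂ` in the faithful representation `e`, and (a) eigenvalues of the same modulus
  are equal, or (b) `HoroInv act μ h`, or (c) all eigenvalues have modulus one;
  `IsGoodTranslation n N F z`, `IsSLTranslation n N F z`: `F` is such a translation; in the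
  second case `D = SL(d, K)`, `K = ℝ` or `ℂ`, and `h` is ANY element diagonalizable over `ℂ`; for example
  `N = SL(d, ℝ) / Γ` for a lattice `Γ`, uniform or not, such as `SL(d, ℤ)`.
-/

set_option autoImplicit false

open scoped Manifold ContDiff Topology
open MeasureTheory

namespace Pool.Agent.Results.MP_1e8d1a_an.HomogeneousStrong

open Pool.Agent.H718R2.G Pool.Agent.W564.SC Pool.Agent.TH382.QC Pool.Agent.E8helper46.FL
  Pool.Agent.TH80.CLX Pool.Agent.Helper36x.HC

variable {n : ℕ} {N : Type*} [TopologicalSpace N] [T2Space N] [ChartedSpace (V n) N]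
  [IsManifold (𝓡 n) ∞ N]

/-- Let `N` be a smooth manifold, compact or not, `F ∈ Diff^r(N)` (`0 ≤ r ≤ ∞`) and `z ∈ N`. Suppose
that `z` lies on an affine leaf with near-returns along times along which the linear part is solvable
(`IsAffinePt`), or that `F` is a translation of a homogeneous manifold of finite volume by a good
element (`IsGoodTranslation`), in particular (`IsSLTranslation`) of `SL(d, ℝ) / Γ` or `SL(d, ℂ) / Γ` by an
element which is diagonalizable over `ℂ`. Then the conclusion of the `C^r` closing lemma holds for `F` at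
`z`, in the strong `C^r` topology and with a prescribed small support: for every neighbourhood `W` of
`z`, each neighbourhood of `F` in `Diff^r(N)` contains some `G` for which `z` is periodic and
which is equal to `F` outside of `W ∪ F⁻¹(W)`. -/
theorem result (r : ℕ∞) (F : DiffM n N r) (z : N)
    (h : IsAffinePt n N F z ∨ IsGoodTranslation n N F z ∨ IsSLTranslation n N F z) :
    ∀ W ∈ 𝓝 z, ∀ U : Set (DiffM n N r), IsOpen[strongTop n N r] U → F ∈ U →
      ∃ G ∈ U, IsPer G z ∧ ∀ y, y ∉ W → F y ∉ W → G y = F y :=
  closing F z h

/-- For closed manifolds: limits of such maps and points. -/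
theorem closed_manifolds [CompactSpace N] (r : ℕ∞) (F : DiffM n N r) (z : N)
    (h : ∀ U : Set (DiffM n N r), IsOpen[strongTop n N r] U → F ∈ U →
      ∃ F' ∈ U, z ∈ closure {y | IsAffinePt n N F' y ∨ IsGoodTranslation n N F' y ∨
        IsSLTranslation n N F' y}) : ClosableAt n N r F z :=
  closing_limits F z h

/-- Special case: finite volume, general groups. -/
theorem finite_volume_translation {A : Type} [NormedRing A] [NormedAlgebra ℝ A]
    [FiniteDimensional ℝ A] [CompleteSpace A] {D : Subgroup Aˣ} [MeasurableSpace N] [BorelSpace N]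
    (r : ℕ∞) {act : D → N → N} {μ : Measure N} {z : N} {d : ℕ} (e : A →ₐ[ℝ] MC d)
    (he : Function.Injective e) (H : FiniteVolume n N D act μ z) (h : D) (hh : GoodElt act μ e h)
    (F : DiffM n N r) (hF : ∀ y, F y = act h y) : LocallyClosable n N r F z :=
  finite_volume e he H h hh F hF

/-- Special case: `SL(d, K) / Γ`, `K = ℝ` or `ℂ`, `Γ` a lattice, uniform or not. -/
theorem special_linear {A : Type} [NormedRing A] [NormedAlgebra ℝ A] [FiniteDimensional ℝ A]
    [CompleteSpace A] {K : Type} [Field K] [Algebra ℝ K] (ι : K →ₐ[ℝ] ℂ) {d : ℕ}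
    (E : A ≃ₐ[ℝ] Matrix (Fin d) (Fin d) K) [MeasurableSpace N] [BorelSpace N] (r : ℕ∞)
    {act : SLsub E → N → N} {μ : Measure N} {z : N} (H : FiniteVolume n N (SLsub E) act μ z)
    (h : SLsub E) (P : (MC d)ˣ) (lam : Fin d → ℂ) (hh : DiagBy (repC ι E ((h : Aˣ) : A)) P lam)
    (F : DiffM n N r) (hF : ∀ y, F y = act h y) : LocallyClosable n N r F z := by
  have := H.finite
  have := H.reg
  exact finite_volume (repC ι E) (repC_inj ι E) H h (sl_good H.mpact hh) F hF

/-- Special case: compact homogeneous manifolds, all translations by limits of good elements. -/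
theorem compact_translation [CompactSpace N] {A : Type} [NormedRing A] [NormedAlgebra ℝ A]
    [FiniteDimensional ℝ A] [CompleteSpace A] {D : Subgroup Aˣ} [MeasurableSpace N] [BorelSpace N]
    (r : ℕ∞) {act : D → N → N} {μ : Measure N} {z : N} {d : ℕ} (e : A →ₐ[ℝ] MC d)
    (he : Function.Injective e) (H : FiniteVolume n N D act μ z) (h : D)
    (hh : h ∈ closure {h' : D | GoodElt act μ e h'}) (F : DiffM n N r)
    (hF : ∀ y, F y = act h y) : ClosableAt n N r F z :=
  compact_limits e he H h hh F hF

/-- Special case: affine maps `g z ↦ φ(g) F(z)` of homogeneous manifolds, at nonwandering points (`φ`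
hyperbolic modulo its fixed points) and at topologically mixing points (`φ` semisimple). No invariant
measure is needed. -/
theorem affine_map {A : Type} [NormedRing A] [NormedAlgebra ℝ A] [FiniteDimensional ℝ A]
    [CompleteSpace A] {D : Subgroup Aˣ} {hD : IsClosed (D : Set Aˣ)} {φ : D →* D} (r : ℕ∞)
    {F : DiffM n N r} {act : D → N → N} {z : N} (hact : IsAction n N D Set.univ act)
    (hopen : ∀ B ∈ 𝓝 (1 : D), (fun g => act g z) '' B ∈ 𝓝 z)
    (hF : ∀ g, F (act g z) = act (φ g) (F z)) (hFz : ∃ g, F z = act g z)
    (h : (HypMod D hD φ ∧ NonWand F z) ∨ (SemiMod D hD φ ∧ MixAt F z)) :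
    LocallyClosable n N r F z :=
  homogeneous hact hopen hF hFz h

/-- Special case: affine leaves. Nothing is required of `F` outside of the leaf of `z`. -/
theorem affine_leaf {A : Type} [NormedRing A] [NormedAlgebra ℝ A] [FiniteDimensional ℝ A]
    [CompleteSpace A] {D : Subgroup Aˣ} {hD : IsClosed (D : Set Aˣ)} {φ : D →* D} (r : ℕ∞)
    {F : DiffM n N r} {O : Set N} {act : D → N → N} {m : ℕ} {z : N} (hact : IsAction n N D O act)
    (hl : AffineLeaf F O act φ m z)
    (h : (HypMod D hD φ ∧ NonWandIn F act m z) ∨ (SemiMod D hD φ ∧ MixingIn F act m z)) :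
    LocallyClosable n N r F z := by
  rcases h with ⟨h1, h2⟩ | ⟨h1, h2⟩
  · exact leaf_hyp hact hl h1 h2
  · exact leaf_semi hact hl h1 h2

end Pool.Agent.Results.MP_1e8d1a_an.HomogeneousStrong
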