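import Pool.Agent.H64.CT.Main

/-!
# The `C^r` closing lemma for thin recurrence

`DiffM n N r` is `Diff^r(N)` and `strongTop n N r` its strong (Whitney) `C^r` topology (the usual one,
`N` being compact) (`Pool/Agent/H718R2/G0.lean`). `Closable n N r F z`: every neighbourhood of `F` in
`Diff^r(N)` contains some `G` for which `z` is periodic (`Pool/Agent/W564/SC/Defs.lean`). `Per f`: the set
of the periodic points (`Pool/Agent/TH80/OMS/SymDefs.lean`). `BaireSet n N r S`: `S` contains a countable
intersection of open dense subsets of `Diff^r(N)` (`Pool/Agent/Y504/CO/KSG.lean`). `ChartLip n N`: the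
distance of `N` is compatible with the smooth structure, for instance a Riemannian distance
(`Pool/Agent/Y368/CL/Met.lean`).

In `Pool/Agent/H64/CT/Defs.lean`:
* `StretchedGrowth β F`: the Lipschitz constants of `F^i`, `i ∈ ℤ`, are at most `exp(K(|i|+1)^β)`; for
  `β = 1` this holds for EVERY `F` (first part of the theorem);
* `PolyGrowth d F`: they are at most `K(|i|+1)^d`;
* `logMeasure N β`: Hausdorff measure for the gauge function `(log(1/t))^(-1/β)`; for `β = 1` this is the
  logarithmic measure;
* `Carried F z P`: there are a set `Y` with the property `P` and an `F`-invariant Borel probability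
  measure `μ` such that `z` is in the support of the restriction of `μ` to `Y` (when `μ` is carried by
  `Y`: `z` is in the support of `μ`);
* `Sparse φ F z`: for every `C` there are points `y` arbitrarily close to `z` and `ε < 1/2` such that the
  forward orbit of `y` is covered by fewer than `1/(C φ(ε))` sets of diameter at most `ε`;
* `ThinRec κ F z`: either `StretchedGrowth β F`, `0 < β ≤ 1`, and (`Carried F z` for sets with
  `logMeasure N β Y = 0`, or `Sparse` for the gauge `(log(1/t))^(-1/β)`), or `PolyGrowth d F` and, for all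
  finite `k ≤ r`, (`Carried F z` for sets of Hausdorff dimension less than `κ k d`, or `Sparse` for the
  gauge `t^(κ k d)`).
`Fro φ F z` (`Pool/Agent/H64/CT/Thin.lean`): there are a neighbourhood `W` of `z` and `C` such that, for all
`y ∈ W` and `0 < ε < 1/2`, ALL invariant probability measures `μ` of `F` satisfy `μ(B(y,ε)) ≤ C φ(ε)`, and
the forward orbit of `y` is not covered by fewer than `1/(C φ(ε))` sets of diameter at most `ε`.

The proof uses returns versus growth (`Pool/Agent/Y368/CL/RvG.lean`, helper368 and project SC) and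
`Pool/Agent/Y368/GG/Main.lean` (project CO).
-/

set_option autoImplicit false

open MeasureTheory
open scoped Manifold ContDiff Topology ENNReal NNReal

universe u

namespace Pool.Agent.Results.MP_1e8d1a_an.ThinRecurrence

open Pool.Agent.H718R2.G Pool.Agent.TH80.OMS Pool.Agent.W564.SC Pool.Agent.Y368.CL
  Pool.Agent.Y504.CO.KSG Pool.Agent.H64.CT

/-- Arbitrarily `C^r`-close to `F` there are diffeomorphisms `F'` (for instance `F' = F`) with thin
recurrence at `z`. -/
def ThinLim {n : ℕ} {N : Type u} [MetricSpace N] [MeasurableSpace N] [BorelSpace N]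
    [ChartedSpace (V n) N] {r : ℕ∞} (κ : ℕ → ℕ → ℝ≥0) (F : DiffM n N r) (z : N) : Prop :=
  ∀ U : Set (DiffM n N r), IsOpen[strongTop n N r] U → F ∈ U → ∃ F' ∈ U, ThinRec κ F' z

/-- The invariant measures and the orbits of `F` near `z` are thick: the Frostman bounds `Fro` hold
with the gauge `(log(1/t))^(-1/β)` when the iterates grow at most like `exp(K i^β)`, and with a gauge
`t^(κ k d)`, `k ≤ r`, when they grow at most like `i^d`. -/
def Thick {n : ℕ} {N : Type u} [MetricSpace N] [MeasurableSpace N] [ChartedSpace (V n) N] {r : ℕ∞}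
    (κ : ℕ → ℕ → ℝ≥0) (F : DiffM n N r) (z : N) : Prop :=
  (∀ β : ℝ, 0 < β → β ≤ 1 → StretchedGrowth β F → Fro (logGauge β) F z) ∧
  ∀ d : ℕ, PolyGrowth d F → ∃ k : ℕ, (k : ℕ∞) ≤ r ∧ Fro (fun t => t ^ (κ k d : ℝ)) F z

/-- There are UNIVERSAL positive numbers `κ n k d` such that for every closed `n`-manifold `N` (with a
compatible distance) and `2 ≤ r ≤ ∞`:
(Q1) EVERY `F ∈ Diff^r(N)` can be `C^r`-closed at every point `z` with thin recurrence; in particular at
every point of the support of any invariant probability measure carried by a set of zero logarithmic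
measure, and at every point whose forward orbit is covered by `o(log(1/ε))` sets of diameter `≤ ε` for a
sequence `ε → 0`; if the iterates of `F` grow at most like `i^d`, dimension less than `κ n k d` for the
finite `k ≤ r` suffices (dimension zero if `r = ∞`). It is enough that this holds for
diffeomorphisms arbitrarily `C^r`-close to `F`.
If `F` cannot be closed at `z`, then all invariant measures satisfy Frostman bounds near `z`, for
instance `μ(B(y,ε)) ≤ C/log(1/ε)`.
(Q2) For GENERIC `f ∈ Diff^r(N)` all points with thin recurrence are limits of periodic points,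
and the Frostman bounds hold near every other point. -/
theorem result : ∃ κ : ℕ → ℕ → ℕ → ℝ≥0, (∀ n k d, 0 < κ n k d) ∧
    ∀ (n : ℕ) (N : Type u) [MetricSpace N] [CompactSpace N] [MeasurableSpace N] [BorelSpace N]
      [ChartedSpace (V n) N] [IsManifold (𝓡 n) ∞ N], ChartLip n N → ∀ r : ℕ∞, 2 ≤ r →
      (∀ F : DiffM n N r, StretchedGrowth 1 F) ∧
      (∀ (F : DiffM n N r) (z : N), ThinLim (κ n) F z → Closable n N r F z) ∧
      (∀ (F : DiffM n N r) (z : N), Closable n N r F z ∨ Thick (κ n) F z) ∧
      BaireSet n N r {f | (∀ z, ThinLim (κ n) f z → z ∈ closure (Per f)) ∧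
        ∀ z, z ∉ closure (Per f) → Thick (κ n) f z} := by
  obtain ⟨a, ha⟩ := Pool.Agent.Y368.CL.main.{u}
  obtain ⟨κ, hκ⟩ : ∃ κ : ℕ → ℕ → ℕ → ℝ≥0,
    κ = fun n k d => Real.toNNReal (1 / ((d + 1 : ℕ) * (a n k + 1) + 1)) := ⟨_, rfl⟩
  have hκc : ∀ n k d, (κ n k d : ℝ) = (1 : ℝ) / ((d + 1 : ℕ) * (a n k + 1) + 1) := by
    intro n k d
    rw [hκ]
    exact Real.coe_toNNReal _ (by positivity)
  have hκ0 : ∀ n k d, 0 < κ n k d := by
    intro n k d
    rw [← NNReal.coe_pos, hκc]
    positivity
  refine ⟨κ, hκ0, fun n N _ _ _ _ _ _ hN r hr => ?_⟩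
  have hr1 : (1 : ℕ∞) ≤ r := le_trans (by norm_num) hr
  have hthick : ∀ (F : DiffM n N r) (z : N), Closable n N r F z ∨ Thick (κ n) F z := by
    intro F z
    by_cases hz : Closable n N r F z
    · exact Or.inl hz
    right
    have hs : Slow (a n) F z := fun Λ h3 h4 => (ha n N hN r hr F Λ h3 h4 z).resolve_left hz
    refine ⟨fun β hβ _ hF => fro_str hs hβ hF, fun d hF => ?_⟩
    obtain ⟨k, hk, h⟩ := fro_poly hs hF
    refine ⟨k, hk, ?_⟩
    rw [hκc]
    exact h
  have hthin : ∀ (F : DiffM n N r) (z : N), ThinLim (κ n) F z → Closable n N r F z := by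
    intro F z hlim U hU hFU
    obtain ⟨F', hF'U, hF'⟩ := hlim U hU hFU
    have hc : Closable n N r F' z := by
      refine (hthick F' z).resolve_right fun h => ?_
      exact not_thin (hκ0 n) h.1 h.2 hF'
    exact hc U hU hF'U
  refine ⟨fun F => stretched_one hN hr1 F, hthin, hthick, ?_⟩
  have hB : BaireSet n N r {f | ∀ z, Closable n N r f z → z ∈ closure (Per f)} :=
    Pool.Agent.Y368.GG.generic_closable (n := n) (N := N) r hr1
  refine hB.mono ?_
  intro f hf
  exact ⟨fun z hz => hf z (hthin f z hz), fun z hz => (hthick f z).resolve_left fun h => hz (hf z h)⟩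

end Pool.Agent.Results.MP_1e8d1a_an.ThinRecurrence
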