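import Pool.Agent.H71TB.Main

/-!
# The `C^r` closing lemma for maps of positive entropy on toral fibres, over an arbitrary map

`V n = ℝⁿ`, `DiffM n N r = Diff^r(N)` with the strong (Whitney) `C^r` topology `strongTop n N r` (the
usual one, `N` being compact), `IsPer G z`: `z` is periodic for `G` (`Pool/Agent/H718R2/G0.lean`),
`Per f`: the set of the periodic points of `f` (`Pool/Agent/TH80/OMS/SymDefs.lean`). `BaireSet n N r S`:
`S` contains a countable intersection of open dense subsets of `Diff^r(N)`
(`Pool/Agent/Y504/CO/KSG.lean`).

From `Pool/Agent/H71TB/AD.lean`, `Pool/Agent/H71TB/App.lean` and `Pool/Agent/H71TB/DefsT.lean`: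
* `TAct d n N R`: `(a, y) ↦ R_a y` is a smooth action of the torus `𝕋^d = ℝ^d / ℤ^d` on `N`;
* `Normalizes n N R A F K z`: `z ∈ K`, `F(K) ⊆ K`, `F (R_a y) = R_{A a} (F y)` for all `a ∈ ℝ^d` and
  `y ∈ K`, where `A` is an integer matrix (`lin A a = A a`), and the stabiliser of `z` in `𝕋^d` is
  trivial. So `F` maps the torus orbits of the points of `K` to torus orbits by affine maps with the
  linear part `A`;
* `Erg A`: no eigenvalue of `A` is a root of unity (`A` is an ergodic automorphism of `𝕋^d`; it need
  not be hyperbolic); `PosEnt A`: some eigenvalue of `A` lies outside of the closed unit disc;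
* `NonWandOrb R F K z`: the torus orbit of `z` is nonwandering for the map which `F` induces on the
  space of the torus orbits of the points of `K`; otherwise this map is ARBITRARY. `NonWandPt F K z`:
  `z` is a nonwandering point of the restriction of `F` to `K` (which may be all of `N`);
* `TorPt n N F z`: for some `d ≥ 1`, `R`, `A`, `K` we have `Normalizes n N R A F K z` and
  (a) `Erg A` and `NonWandOrb R F K z`, or (b) `PosEnt A` and `NonWandPt F K z`;
* `Approx n N r F Q`: every neighbourhood of `F` in `Diff^r(N)` contains some `G` with the property `Q`.

Examples: `f` is an ARBITRARY diffeomorphism of a closed manifold `M` and `F (x, y) = (f x, A y + φ x)`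
on `M × 𝕋^d`, or `F` is an automorphism of a principal `𝕋^d`-bundle over `M` which covers `f`. By (a), if
the automorphism `A` of `𝕋^d` is ergodic, for instance ergodic and nonhyperbolic, all points over the
nonwandering set of `f` can be closed; by (b), if `A` has positive entropy, for instance
`A = A₁ × id`, all nonwandering points of `F` can be closed.

The shadowing lemma and all its substitutes known to us fail for such maps in the fibres. The proof
replaces it by the effective equidistribution of the images of small plaques of the expanding space
of `A`, at the times `C log (1 / ρ)` (the expanding space is Diophantine, by a lemma of Katznelson),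
and by an avoidance argument: a plaque is subdivided along a tree, those pieces are discarded the
orbits of which return too early, and most pieces survive. This gives points near `z` whose orbits
return to distance `ρ^P` before they return to distance `ρ`, for all `P`.
-/

set_option autoImplicit false

open scoped Manifold ContDiff Topology

universe u

namespace Pool.Agent.Results.MP_1e8d1a_an.TorusNormalizers

open Pool.Agent.H718R2.G Pool.Agent.H71TB Pool.Agent.TH80.OMS Pool.Agent.Y504.CO.KSG

/-- Let `N` be a closed manifold and `1 ≤ r ≤ ∞`. (Q1) Let `F ∈ Diff^r(N)` and `z ∈ N`, and suppose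
that arbitrarily `C^r`-close to `F` there are diffeomorphisms `F'` (for example `F' = F`) which on an
invariant set containing `z` normalize a smooth torus action, freely at `z`, and act on the torus by
an automorphism which is ergodic (the torus orbit of `z` being nonwandering for the induced map of the
space of orbits, which is otherwise arbitrary) or has positive entropy (`z` being nonwandering). Then
the conclusion of the `C^r` closing lemma holds for `F` at `z`. (Q2) For all `f` in a Baire set of
`Diff^r(N)`, every such point `z` is a limit of periodic points of `f`. -/
theorem result {n : ℕ} {N : Type u} [TopologicalSpace N] [T2Space N] [CompactSpace N]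
    [ChartedSpace (V n) N] [IsManifold (𝓡 n) ∞ N] (r : ℕ∞) (hr : 1 ≤ r) :
    (∀ (F : DiffM n N r) (z : N), (Approx n N r F fun F' => TorPt n N F' z) →
      Approx n N r F fun G => IsPer G z) ∧
    BaireSet n N r
      {f | ∀ z, (Approx n N r f fun f' => TorPt n N f' z) → z ∈ closure (Per f)} :=
  ⟨main1 r hr, main2 r hr⟩

end Pool.Agent.Results.MP_1e8d1a_an.TorusNormalizers
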